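import Pool.Agent.Helper92.BO.GoalsG

/-!
# Stable set polytopes: the final estimate of the complex step (CGF)
-/

namespace Pool.Agent.Helper49.BO

open MeasureTheory Filter Topology Function
open Pool.Agent.Helper92.BO

/-- From an estimate of a difference to a logarithm. -/
theorem log_step {r κ c e P X X' br : ℝ} {ZC ZC' : ℂ} (hX : 0 < X) (hX' : 0 < X')
    (hr : 0 < r) (hκ : 0 < κ) (hc0 : 0 < c) (hc1 : c ≤ 1 / 8) (he0 : 0 ≤ e) (he : e ≤ c / 100)
    (hκc : κ ≤ c / 100) (hP0 : 0 ≤ P) (hP1 : P ≤ 1)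
    (hZC : ZC ≠ 0) (hlow : (1 - 2 * e) * r * X' ≤ ‖ZC'‖)
    (hA : ‖ZC * X' - ZC' * X‖ ≤ (1 + 8 * e) * r * κ * br)
    (hbr : br ≤ (1 - c / 2) * P * (X' * X)) :
    ∃ D : ℂ, ZC * X' = Complex.exp D * (ZC' * X) ∧ ‖D‖ ≤ κ * P := by
  have he2 : 0 < 1 - 2 * e := by linarith
  have hlow0 : 0 < (1 - 2 * e) * r * X' := by positivity
  have hZC'n : 0 < ‖ZC'‖ := lt_of_lt_of_le hlow0 hlow
  have hZC' : ZC' ≠ 0 := norm_pos_iff.1 hZC'n
  have hXc : (X : ℂ) ≠ 0 := by exact_mod_cast hX.ne'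
  have hXc' : (X' : ℂ) ≠ 0 := by exact_mod_cast hX'.ne'
  have hden : ZC' * (X : ℂ) ≠ 0 := mul_ne_zero hZC' hXc
  set w : ℂ := (ZC * X' - ZC' * X) / (ZC' * X) with hw
  have hq : 1 + w = ZC * X' / (ZC' * X) := by
    rw [hw]
    field_simp
    ring
  have hq0 : 1 + w ≠ 0 := by
    rw [hq]
    exact div_ne_zero (mul_ne_zero hZC hXc') hden
  have hwn : ‖w‖ ≤ κ * P * (1 - 3 * c / 10) := by
    rw [hw, norm_div, norm_mul ZC' (X : ℂ), Complex.norm_real, Real.norm_eq_abs, abs_of_pos hX,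
      div_le_iff₀ (mul_pos hZC'n hX)]
    have h1 : (1 + 8 * e) * r * κ * br ≤
        (1 + 8 * e) * r * κ * ((1 - c / 2) * P * (X' * X)) :=
      mul_le_mul_of_nonneg_left hbr (by positivity)
    have h2 : (1 + 8 * e) * (1 - c / 2) ≤ (1 - 2 * e) * (1 - 3 * c / 10) := by nlinarith
    have h3 : κ * P * (1 - 3 * c / 10) * ((1 - 2 * e) * r * X' * X) ≤
        κ * P * (1 - 3 * c / 10) * (‖ZC'‖ * X) := by
      refine mul_le_mul_of_nonneg_left (mul_le_mul_of_nonneg_right hlow hX.le) ?_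
      have : 0 ≤ 1 - 3 * c / 10 := by linarith
      positivity
    have h4 : (1 + 8 * e) * r * κ * ((1 - c / 2) * P * (X' * X)) =
        ((1 + 8 * e) * (1 - c / 2)) * (r * κ * P * (X' * X)) := by ring
    have h5 : κ * P * (1 - 3 * c / 10) * ((1 - 2 * e) * r * X' * X) =
        ((1 - 2 * e) * (1 - 3 * c / 10)) * (r * κ * P * (X' * X)) := by ring
    have h6 : ((1 + 8 * e) * (1 - c / 2)) * (r * κ * P * (X' * X)) ≤
        ((1 - 2 * e) * (1 - 3 * c / 10)) * (r * κ * P * (X' * X)) :=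
      mul_le_mul_of_nonneg_right h2 (by positivity)
    linarith
  have hwκ : ‖w‖ ≤ κ := by
    refine hwn.trans ?_
    have h1 : P * (1 - 3 * c / 10) ≤ 1 := by nlinarith
    have h2 : κ * (P * (1 - 3 * c / 10)) ≤ κ * 1 := mul_le_mul_of_nonneg_left h1 hκ.le
    linarith
  refine ⟨Complex.log (1 + w), ?_, ?_⟩
  · rw [Complex.exp_log hq0, hq, div_mul_cancel₀ _ hden]
  · have h1 := Complex.norm_log_one_add_le (z := w) (by linarith)
    have h2 : ‖w‖ ^ 2 * (1 - ‖w‖)⁻¹ / 2 ≤ ‖w‖ ^ 2 := by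
      have h3 : (1 - ‖w‖)⁻¹ ≤ 2 := by
        rw [inv_le_comm₀ (by linarith) (by norm_num)]
        linarith
      have h4 : ‖w‖ ^ 2 * (1 - ‖w‖)⁻¹ ≤ ‖w‖ ^ 2 * 2 :=
        mul_le_mul_of_nonneg_left h3 (sq_nonneg _)
      linarith
    have h5 : ‖w‖ ^ 2 ≤ κ * ‖w‖ := by
      rw [sq]
      exact mul_le_mul_of_nonneg_right hwκ (norm_nonneg _)
    have h6 : ‖w‖ + κ * ‖w‖ ≤ κ * P := by
      have h7 : (1 + κ) * ‖w‖ ≤ (1 + κ) * (κ * P * (1 - 3 * c / 10)) :=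
        mul_le_mul_of_nonneg_left hwn (by linarith)
      have h8 : (1 + κ) * (1 - 3 * c / 10) ≤ 1 := by nlinarith
      have h9 : ((1 + κ) * (1 - 3 * c / 10)) * (κ * P) ≤ 1 * (κ * P) :=
        mul_le_mul_of_nonneg_right h8 (by positivity)
      linarith
    linarith

/-- CGF. -/
theorem cgf (hN : CgnStmt) (hD : CgdStmt) (hA : SraStmt) (hB : SrbStmt) (hC : SrcStmt)
    (hE : SrdStmt) : CgfStmt := by
  intro d l κ z W V T H y' y P hy0 hyy hy1 hy'h hyh hP0 hP1 hPM hPS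
  have hd0 : (0 : ℝ) ≤ d := Nat.cast_nonneg d
  set c : ℝ := l * (1 / 4) ^ d / (8 * (d + 1)) with hc
  have hpow : (0 : ℝ) < (1 / 4) ^ d := by positivity
  have hpow1 : ((1 : ℝ) / 4) ^ d ≤ 1 := pow_le_one₀ (by norm_num) (by norm_num)
  have hc0 : 0 < c := by
    have := H.l0
    positivity
  have hc1 : c ≤ 1 / 8 := by
    rw [hc, div_le_iff₀ (by positivity)]
    have h1 : l * (1 / 4) ^ d ≤ 1 := mul_le_one₀ H.l1 hpow.le hpow1
    linarith
  have he : κ * (d + 1) ≤ c / 100 := by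
    have h1 := H.κ1
    have h2 : c / 100 = l * (1 / 4) ^ d / (800 * (d + 1) ^ 2) * (d + 1) := by
      rw [hc]
      field_simp
      ring
    rw [h2]
    exact mul_le_mul_of_nonneg_right h1 (by positivity)
  have hκ0 := H.κ0
  have hκc : κ ≤ c / 100 := by
    have h1 : κ * 1 ≤ κ * (d + 1) := mul_le_mul_of_nonneg_left (by linarith) hκ0.le
    linarith
  obtain ⟨hX, hZC, _⟩ := (hN d l κ z W V T H).2 y (hy0.trans hyy) hy1
  obtain ⟨hX', hZC', hn'⟩ := (hN d l κ z W V T H).2 y' hy0 (hyy.le.trans hy1)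
  set r : ℝ := ‖V (1 / 4) / (W (1 / 4) : ℂ)‖ with hr
  have hr0 : 0 < r := by
    rcases (norm_nonneg (V (1 / 4) / (W (1 / 4) : ℂ))).eq_or_lt with h1 | h1
    · exfalso
      have h2 : V (1 / 4) / (W (1 / 4) : ℂ) = 0 := norm_eq_zero.1 h1.symm
      rw [hr, h2, norm_zero, mul_zero, zero_mul, zero_mul, sub_zero] at hn'
      exact hZC' (norm_le_zero_iff.1 hn')
    · exact h1
  have hlow : (1 - 2 * (κ * (d + 1))) * r * Zf l W y' ≤ ‖ZCf z V y'‖ := by
    have h1 : ‖V (1 / 4) / (W (1 / 4) : ℂ) * (Zf l W y' : ℂ)‖ = r * Zf l W y' := by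
      rw [norm_mul, Complex.norm_real, Real.norm_eq_abs, abs_of_pos hX']
    have h2 := norm_sub_norm_le (V (1 / 4) / (W (1 / 4) : ℂ) * (Zf l W y' : ℂ)) (ZCf z V y')
    rw [norm_sub_rev, h1] at h2
    have h3 : (1 - 2 * (κ * (d + 1))) * r * Zf l W y' =
        r * Zf l W y' - 2 * κ * (d + 1) * r * Zf l W y' := by ring
    rw [h3]
    linarith
  have hdiff := hD d l κ z W V T H y' y hy0 hyy hy1 hy'h hyh
  obtain ⟨_, hS0, hS2⟩ := hE d l W H.l0 H.l1 H.adm y' y hy0 hyy hy1 hy'h hyh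
  have hbr1 : C2 l W T y' y +
      l / 8 * (if 1 / 2 < y then Zf l W y' * ∫ x in (max y' (1 / 2))..y, rho l W x else 0) ≤
      C2 l W T y' y + Sf l W y' y / 2 := by
    split_ifs with h1
    · have := hS2 h1
      linarith
    · linarith
  have hS3 : c * Mf l W y' y * (Zf l W y' * Zf l W y) ≤ Sf l W y' y := by
    rcases lt_or_gt_of_ne hyh with h1 | h1
    · exact hA d l W H.l0 H.l1 H.adm y' y hy0 hyy h1
    · rcases lt_or_gt_of_ne hy'h with h2 | h2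
      · exact hB d l W H.l0 H.l1 H.adm y' y hy0 h2 h1 hy1
      · exact hC d l W H.l0 H.l1 H.adm y' y h2 hyy hy1
  have hS4 : c * P * (Zf l W y' * Zf l W y) ≤ Sf l W y' y := by
    refine le_trans ?_ hS3
    refine mul_le_mul_of_nonneg_right (mul_le_mul_of_nonneg_left hPM hc0.le) ?_
    positivity
  refine log_step (r := r) (κ := κ) (c := c) (e := κ * (d + 1)) (P := P)
    (br := C2 l W T y' y +
      l / 8 * (if 1 / 2 < y then Zf l W y' * ∫ x in (max y' (1 / 2))..y, rho l W x else 0))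
    hX hX' hr0 hκ0 hc0 hc1 (by positivity) he hκc hP0 hP1 hZC hlow ?_ ?_
  · refine hdiff.trans (le_of_eq ?_)
    ring
  · have h1 : (1 - c / 2) * P * (Zf l W y' * Zf l W y) =
        P * (Zf l W y' * Zf l W y) - c * P * (Zf l W y' * Zf l W y) / 2 := by ring
    rw [h1]
    linarith

end Pool.Agent.Helper49.BO
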