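import Pool.Agent.Helper92.BO.GoalsA

/-!
# Packet BO-KBD (MP_481f43_lc, project BO of helper92)
-/

namespace Pool.Agent.Helper49.BO

open MeasureTheory Filter Topology Function
open Pool.Agent.Helper92.BO

theorem psiR_meas (l : ℝ) : Measurable (psiR l) := by
  unfold psiR
  exact Measurable.ite (measurableSet_le measurable_id measurable_const) measurable_const
    measurable_const

theorem psiR_abs {l : ℝ} (h0 : 0 < l) (h1 : l ≤ 1) (x : ℝ) : |psiR l x| ≤ 1 := by
  unfold psiR
  split_ifs
  · simp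
  · rw [abs_of_pos h0]; exact h1

theorem cut_meas (G : SimpleGraph ℕ) (v : ℕ) :
    Measurable (fun p : (ℕ → ℝ) × ℝ => cut G v p.2 p.1) := by
  rw [measurable_pi_iff]
  intro u
  by_cases h : G.Adj v u
  · simp only [cut, h, if_true]
    exact ((measurable_pi_apply u).comp measurable_fst).min measurable_snd
  · simp only [cut, h, if_false]
    exact (measurable_pi_apply u).comp measurable_fst

theorem cut_meas' (G : SimpleGraph ℕ) (v : ℕ) :
    Measurable (fun p : (ℕ → ℝ) × ℝ => cut G v (1 - p.2) p.1) :=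
  (cut_meas G v).comp (measurable_fst.prodMk (measurable_const.sub measurable_snd))

theorem int_meas (v : ℕ) {f : (ℕ → ℝ) × ℝ → ℝ} (hf : Measurable f) :
    Measurable (fun b : ℕ → ℝ => ∫ x in (0 : ℝ)..(b v), f (b, x)) := by
  have hv : Measurable (fun p : (ℕ → ℝ) × ℝ => p.1 v) :=
    (measurable_pi_apply v).comp measurable_fst
  have m1 : MeasurableSet {p : (ℕ → ℝ) × ℝ | 0 < p.2 ∧ p.2 ≤ p.1 v} :=
    (measurableSet_lt measurable_const measurable_snd).inter
      (measurableSet_le measurable_snd hv)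
  have m2 : MeasurableSet {p : (ℕ → ℝ) × ℝ | p.1 v < p.2 ∧ p.2 ≤ 0} :=
    (measurableSet_lt hv measurable_snd).inter
      (measurableSet_le measurable_snd measurable_const)
  have h1 : Measurable (fun b : ℕ → ℝ =>
      ∫ x, Set.indicator {p : (ℕ → ℝ) × ℝ | 0 < p.2 ∧ p.2 ≤ p.1 v} f (b, x)) :=
    ((hf.indicator m1).stronglyMeasurable.integral_prod_right
      (f := fun (b : ℕ → ℝ) (x : ℝ) =>
        Set.indicator {p : (ℕ → ℝ) × ℝ | 0 < p.2 ∧ p.2 ≤ p.1 v} f (b, x))).measurable
  have h2 : Measurable (fun b : ℕ → ℝ =>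
      ∫ x, Set.indicator {p : (ℕ → ℝ) × ℝ | p.1 v < p.2 ∧ p.2 ≤ 0} f (b, x)) :=
    ((hf.indicator m2).stronglyMeasurable.integral_prod_right
      (f := fun (b : ℕ → ℝ) (x : ℝ) =>
        Set.indicator {p : (ℕ → ℝ) × ℝ | p.1 v < p.2 ∧ p.2 ≤ 0} f (b, x))).measurable
  have e : (fun b : ℕ → ℝ => ∫ x in (0 : ℝ)..(b v), f (b, x)) = fun b =>
      (∫ x, Set.indicator {p : (ℕ → ℝ) × ℝ | 0 < p.2 ∧ p.2 ≤ p.1 v} f (b, x)) -
      ∫ x, Set.indicator {p : (ℕ → ℝ) × ℝ | p.1 v < p.2 ∧ p.2 ≤ 0} f (b, x) := by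
    funext b
    rw [intervalIntegral, ← integral_indicator measurableSet_Ioc,
      ← integral_indicator measurableSet_Ioc]
    rfl
  rw [e]
  exact h1.sub h2

theorem ZR_meas (G : SimpleGraph ℕ) (l : ℝ) (L : List ℕ) :
    Measurable (fun b : ℕ → ℝ => ZR G l L b) := by
  induction L with
  | nil => exact measurable_const
  | cons v L ih =>
    exact int_meas v (f := fun p => psiR l p.2 * ZR G l L (cut G v (1 - p.2) p.1))
      (((psiR_meas l).comp measurable_snd).mul (ih.comp (cut_meas' G v)))

theorem KR_meas (G : SimpleGraph ℕ) (s : ℕ → ℝ) (l : ℝ) (L : List ℕ) :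
    Measurable (fun b : ℕ → ℝ => KR G s l L b) := by
  induction L with
  | nil => exact measurable_const
  | cons v L ih =>
    have hZ := ZR_meas G l L
    refine Measurable.add ?_ ?_
    · exact int_meas v (f := fun p => psiR l p.2 *
        (s v * (2 * p.2 - 1) * ZR G l L (cut G v (1 - p.2) p.1) +
          KR G s l L (cut G v (1 - p.2) p.1)))
        (((psiR_meas l).comp measurable_snd).mul
          (((measurable_const.mul ((measurable_const.mul measurable_snd).sub
            measurable_const)).mul (hZ.comp (cut_meas' G v))).add (ih.comp (cut_meas' G v))))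
    · refine Measurable.ite (measurableSet_lt measurable_const (measurable_pi_apply v)) ?_
        measurable_const
      exact measurable_const.mul (hZ.comp
        ((cut_meas G v).comp (measurable_id.prodMk measurable_const)))

theorem cut_In01 {G : SimpleGraph ℕ} {v : ℕ} {c : ℝ} {b : ℕ → ℝ} {L : List ℕ}
    (hb : In01 L b) (h0 : 0 ≤ c) (h1 : c ≤ 1) : In01 L (cut G v c b) := by
  intro u hu
  obtain ⟨a1, a2⟩ := hb u hu
  by_cases h : G.Adj v u
  · simp only [cut, h, if_true]
    exact ⟨le_min a1 h0, (min_le_right _ _).trans h1⟩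
  · simp only [cut, h, if_false]
    exact ⟨a1, a2⟩

theorem KR_bound (hPos : PosStmt) (G : SimpleGraph ℕ) (s : ℕ → ℝ) (l : ℝ) (hs : Sgn G s)
    (h0 : 0 < l) (h1 : l ≤ 1) (L : List ℕ) : ∀ b, In01 L b → |KR G s l L b| ≤ 2 * L.length := by
  induction L with
  | nil => intro b _; simp [KR]
  | cons v L ih =>
    intro b hb
    obtain ⟨b0, b1⟩ := hb v (by simp)
    have hbL : In01 L b := fun u hu => hb u (List.mem_cons_of_mem _ hu)
    have hsv : |s v| ≤ 1 := by
      rcases hs.pm v with h | h <;> rw [h] <;> simp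
    have key : ∀ x ∈ Set.uIoc (0 : ℝ) (b v), ‖psiR l x *
        (s v * (2 * x - 1) * ZR G l L (cut G v (1 - x) b) + KR G s l L (cut G v (1 - x) b))‖
        ≤ 1 + 2 * L.length := by
      intro x hx
      rw [Set.uIoc_of_le b0] at hx
      have hc : In01 L (cut G v (1 - x) b) :=
        cut_In01 hbL (by linarith [hx.2]) (by linarith [hx.1])
      have z := (hPos G l L (cut G v (1 - x) b) h0 h1).1 hc
      have k := ih _ hc
      have p := psiR_abs h0 h1 x
      have q : |2 * x - 1| ≤ 1 := by
        rw [abs_le]; constructor <;> linarith [hx.1, hx.2]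
      have z1 : |ZR G l L (cut G v (1 - x) b)| ≤ 1 := by
        rw [abs_of_nonneg z.1]; exact z.2
      rw [Real.norm_eq_abs, abs_mul]
      have t1 : |s v * (2 * x - 1) * ZR G l L (cut G v (1 - x) b)| ≤ 1 := by
        rw [abs_mul, abs_mul]
        exact mul_le_one₀ (mul_le_one₀ hsv (abs_nonneg _) q) (abs_nonneg _) z1
      have t2 : |s v * (2 * x - 1) * ZR G l L (cut G v (1 - x) b) +
          KR G s l L (cut G v (1 - x) b)| ≤ 1 + 2 * L.length :=
        (abs_add_le _ _).trans (add_le_add t1 k)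
      calc _ ≤ 1 * (1 + 2 * (L.length : ℝ)) := mul_le_mul p t2 (abs_nonneg _) zero_le_one
        _ = _ := one_mul _
    have hint := intervalIntegral.norm_integral_le_of_norm_le_const key
    rw [Real.norm_eq_abs, sub_zero, abs_of_nonneg b0] at hint
    have hsec : |if 1 / 2 < b v then s v * (1 - l) / 4 * ZR G l L (cut G v (1 / 2) b) else 0|
        ≤ 1 / 4 := by
      split_ifs
      · have hc : In01 L (cut G v (1 / 2) b) := cut_In01 hbL (by norm_num) (by norm_num)
        have z := (hPos G l L (cut G v (1 / 2) b) h0 h1).1 hc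
        have z1 : |ZR G l L (cut G v (1 / 2) b)| ≤ 1 := by
          rw [abs_of_nonneg z.1]; exact z.2
        have l1 : |1 - l| ≤ 1 := by
          rw [abs_le]; constructor <;> linarith
        have : |s v * (1 - l) * ZR G l L (cut G v (1 / 2) b)| ≤ 1 := by
          rw [abs_mul, abs_mul]
          exact mul_le_one₀ (mul_le_one₀ hsv (abs_nonneg _) l1) (abs_nonneg _) z1
        have e : s v * (1 - l) / 4 * ZR G l L (cut G v (1 / 2) b)
            = 1 / 4 * (s v * (1 - l) * ZR G l L (cut G v (1 / 2) b)) := by ring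
        rw [e, abs_mul, abs_of_pos (by norm_num : (0 : ℝ) < 1 / 4)]
        linarith
      · simp
    have hL : (0 : ℝ) ≤ L.length := Nat.cast_nonneg _
    have e1 : KR G s l (v :: L) b = (∫ x in (0 : ℝ)..(b v), psiR l x *
        (s v * (2 * x - 1) * ZR G l L (cut G v (1 - x) b) + KR G s l L (cut G v (1 - x) b))) +
      (if 1 / 2 < b v then s v * (1 - l) / 4 * ZR G l L (cut G v (1 / 2) b) else 0) := rfl
    rw [e1]
    refine (abs_add_le _ _).trans ?_
    have : (1 + 2 * (L.length : ℝ)) * b v ≤ 1 + 2 * L.length := by nlinarith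
    rw [List.length_cons]
    push_cast
    linarith

theorem kbd (hPos : PosStmt) : KbdStmt := by
  intro G s l hs h0 h1 L
  have hb := KR_bound hPos G s l hs h0 h1 L
  refine ⟨hb, KR_meas G s l L, fun v b hbL => ?_⟩
  have hm : Measurable (fun x : ℝ => KR G s l L (cut G v (1 - x) b)) :=
    (KR_meas G s l L).comp ((cut_meas' G v).comp (measurable_const.prodMk measurable_id))
  rw [intervalIntegrable_iff_integrableOn_Ioc_of_le zero_le_one]
  refine Measure.integrableOn_of_bounded (M := 2 * L.length) (by simp) hm.aestronglyMeasurable ?_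
  rw [ae_restrict_iff' measurableSet_Ioc]
  refine Eventually.of_forall fun x hx => ?_
  rw [Real.norm_eq_abs]
  exact hb _ (cut_In01 hbL (by linarith [hx.2]) (by linarith [hx.1]))

end Pool.Agent.Helper49.BO
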