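import Pool.Agent.Helper92.BO.GoalsE

/-!
# Stable set polytopes: values of the logarithmic coefficients (NSV)
-/

namespace Pool.Agent.Helper49.BO

open Pool.Agent.Helper81.CC Pool.Agent.Bin Pool.Agent.Helper92.VP Pool.Agent.Helper92.FR
open Pool.Agent.Helper92.BO

theorem val_qNat' (n : ℕ) : Qn.val (qNat n) = n := by
  unfold qNat
  simp

theorem nsx_val {yl acc : List Qn} {y s : ℕ → ℝ} {t : ℕ} (h0 : y 0 = 1) (hs : IsNs y s)
    (hy : ∀ i ≤ t + 1, (yl.getD i Qn.zero).val = y i)
    (ha : ∀ i < t, (acc.getD i Qn.zero).val = s (i + 1)) : (nsx yl acc t).val = s (t + 1) := by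
  unfold nsx
  rw [Qn.val_sub, Qn.val_mul, val_qNat', hy (t + 1) le_rfl, Qn.val_sum, List.map_map]
  have h1 := hs.2 (t + 1)
  rw [Finset.sum_range_succ, Finset.sum_range_succ', Nat.sub_self, hs.1, mul_zero, add_zero,
    Nat.sub_zero, h0, one_mul] at h1
  have h2 : ((List.range t).map (Qn.val ∘ fun k =>
      Qn.mul (yl.getD (k + 1) Qn.zero) (acc.getD (t - 1 - k) Qn.zero))).sum =
      ∑ k ∈ Finset.range t, y (k + 1) * s (t + 1 - (k + 1)) := by
    have e : ∑ k ∈ Finset.range t, y (k + 1) * s (t + 1 - (k + 1)) =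
        ((List.range t).map fun k => y (k + 1) * s (t + 1 - (k + 1))).sum := rfl
    rw [e]
    congr 1
    refine List.map_congr_left fun k hk => ?_
    have hk : k < t := by simpa using hk
    simp only [Function.comp]
    rw [Qn.val_mul, hy (k + 1) (by omega), ha (t - 1 - k) (by omega)]
    congr 2
    omega
  rw [h2]
  linarith

/-- NSV. -/
theorem nsv : NsvStmt := by
  intro yl y s m h0 hs hy
  have key : ∀ t ≤ m, ((List.range t).foldl (fun acc t => acc ++ [nsx yl acc t]) []).length = t ∧
      ∀ i < t, (((List.range t).foldl (fun acc t => acc ++ [nsx yl acc t]) []).getD i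
        Qn.zero).val = s (i + 1) := by
    intro t
    induction t with
    | zero => intro _; simp
    | succ t ih =>
      intro ht
      obtain ⟨h1, h2⟩ := ih (by omega)
      rw [List.range_succ, List.foldl_append]
      simp only [List.foldl_cons, List.foldl_nil]
      refine ⟨by rw [List.length_append, h1]; rfl, fun i hi => ?_⟩
      rcases Nat.lt_succ_iff_lt_or_eq.1 hi with hi | rfl
      · rw [List.getD_append _ _ _ _ (by rw [h1]; exact hi)]
        exact h2 i hi
      · rw [List.getD_append_right _ _ _ _ (by rw [h1]), h1, Nat.sub_self]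
        simp only [List.getD_cons_zero]
        exact nsx_val h0 hs (fun i hi => hy i (by omega)) h2
  exact key m le_rfl

end Pool.Agent.Helper49.BO
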