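import Pool.Agent.Helper92.BO.GoalsC

/-!
# Stable set polytopes: separated parts (PML)
-/

namespace Pool.Agent.Helper49.BO

open Pool.Agent.Helper92.BO Finset

theorem mem_cn {G : SimpleGraph ℕ} {n : ℕ} {I : Finset ℕ} {w : ℕ} :
    w ∈ cn G n I ↔ w < n ∧ (w ∈ I ∨ ∃ v ∈ I, G.Adj v w) := by
  classical
  unfold cn
  simp

theorem cn_mono {G : SimpleGraph ℕ} {n : ℕ} {I J : Finset ℕ} (h : I ⊆ J) :
    cn G n I ⊆ cn G n J := by
  intro w hw
  rw [mem_cn] at hw ⊢
  refine ⟨hw.1, ?_⟩
  rcases hw.2 with h1 | ⟨v, hv, hvw⟩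
  · exact Or.inl (h h1)
  · exact Or.inr ⟨v, h hv, hvw⟩

theorem sub_cn {G : SimpleGraph ℕ} {n : ℕ} {I : Finset ℕ} (h : I ⊆ range n) : I ⊆ cn G n I := by
  intro w hw
  rw [mem_cn]
  exact ⟨by simpa using h hw, Or.inl hw⟩

theorem cn_union {G : SimpleGraph ℕ} {n : ℕ} {I J : Finset ℕ} :
    cn G n (I ∪ J) = cn G n I ∪ cn G n J := by
  classical
  ext w
  rw [mem_union, mem_cn, mem_cn, mem_cn]
  constructor
  · rintro ⟨hw, h1 | ⟨v, hv, hvw⟩⟩
    · rcases mem_union.1 h1 with h2 | h2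
      · exact Or.inl ⟨hw, Or.inl h2⟩
      · exact Or.inr ⟨hw, Or.inl h2⟩
    · rcases mem_union.1 hv with h2 | h2
      · exact Or.inl ⟨hw, Or.inr ⟨v, h2, hvw⟩⟩
      · exact Or.inr ⟨hw, Or.inr ⟨v, h2, hvw⟩⟩
  · rintro (⟨hw, h1 | ⟨v, hv, hvw⟩⟩ | ⟨hw, h1 | ⟨v, hv, hvw⟩⟩)
    · exact ⟨hw, Or.inl (mem_union_left _ h1)⟩
    · exact ⟨hw, Or.inr ⟨v, mem_union_left _ hv, hvw⟩⟩
    · exact ⟨hw, Or.inl (mem_union_right _ h1)⟩
    · exact ⟨hw, Or.inr ⟨v, mem_union_right _ hv, hvw⟩⟩

/-- PML: separated parts multiply. -/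
theorem pml (hprc : PrcStmt) : PmlStmt := by
  intro G n
  obtain ⟨h0, -, hz, hr⟩ := hprc G n
  have key : ∀ k : ℕ, ∀ I J : Finset ℕ, I.card + J.card = k → I ⊆ range n → J ⊆ range n →
      Disjoint (cn G n I) (cn G n J) → pG G n (I ∪ J) = pG G n I * pG G n J := by
    intro k
    induction k using Nat.strong_induction_on with
    | _ k ih =>
      intro I J hk hI hJ hd
      rcases I.eq_empty_or_nonempty with rfl | hIn
      · rw [h0, empty_union, one_mul]
      rcases J.eq_empty_or_nonempty with rfl | hJn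
      · rw [h0, union_empty, mul_one]
      by_cases hIe : ∃ i ∈ I, ∃ j ∈ I, G.Adj i j
      · obtain ⟨i, hi, j, hj, hij⟩ := hIe
        rw [hz I hI ⟨i, hi, j, hj, hij⟩, zero_mul]
        exact hz _ (union_subset hI hJ) ⟨i, mem_union_left _ hi, j, mem_union_left _ hj, hij⟩
      by_cases hJe : ∃ i ∈ J, ∃ j ∈ J, G.Adj i j
      · obtain ⟨i, hi, j, hj, hij⟩ := hJe
        rw [hz J hJ ⟨i, hi, j, hj, hij⟩, mul_zero]
        exact hz _ (union_subset hI hJ) ⟨i, mem_union_right _ hi, j, mem_union_right _ hj, hij⟩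
      have hIi : ∀ i ∈ I, ∀ j ∈ I, ¬ G.Adj i j := by
        intro i hi j hj hij
        exact hIe ⟨i, hi, j, hj, hij⟩
      have hJi : ∀ i ∈ J, ∀ j ∈ J, ¬ G.Adj i j := by
        intro i hi j hj hij
        exact hJe ⟨i, hi, j, hj, hij⟩
      have hIJ : ∀ i ∈ I, ∀ j ∈ J, ¬ G.Adj i j := by
        intro i hi j hj hij
        refine disjoint_left.1 hd (?_ : j ∈ cn G n I) (sub_cn hJ hj)
        rw [mem_cn]
        exact ⟨by simpa using hJ hj, Or.inr ⟨i, hi, hij⟩⟩
      have hUi : ∀ i ∈ I ∪ J, ∀ j ∈ I ∪ J, ¬ G.Adj i j := by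
        intro i hi j hj hij
        rcases mem_union.1 hi with hi | hi <;> rcases mem_union.1 hj with hj | hj
        · exact hIi i hi j hj hij
        · exact hIJ i hi j hj hij
        · exact hIJ j hj i hi hij.symm
        · exact hJi i hi j hj hij
      have hdis : Disjoint I J := Disjoint.mono (sub_cn hI) (sub_cn hJ) hd
      have hU := hr (I ∪ J) (union_subset hI hJ) (hIn.mono subset_union_left) hUi
      have h1 := hr I hI hIn hIi
      have h2 := hr J hJ hJn hJi
      rw [cn_union, card_union_of_disjoint hd, sum_union hdis] at hU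
      have hs1 : ∑ i ∈ I, pG G n ((I ∪ J).erase i) = (∑ i ∈ I, pG G n (I.erase i)) * pG G n J := by
        rw [sum_mul]
        refine sum_congr rfl fun i hi => ?_
        have e : (I ∪ J).erase i = I.erase i ∪ J := by
          rw [erase_union_distrib, erase_eq_of_notMem (disjoint_left.1 hdis hi)]
        rw [e]
        refine ih _ ?_ _ _ rfl ((erase_subset _ _).trans hI) hJ
          (Disjoint.mono_left (cn_mono (erase_subset _ _)) hd)
        have := card_erase_lt_of_mem hi
        omega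
      have hs2 : ∑ j ∈ J, pG G n ((I ∪ J).erase j) = pG G n I * ∑ j ∈ J, pG G n (J.erase j) := by
        rw [mul_sum]
        refine sum_congr rfl fun j hj => ?_
        have e : (I ∪ J).erase j = I ∪ J.erase j := by
          rw [erase_union_distrib, erase_eq_of_notMem (disjoint_right.1 hdis hj)]
        rw [e]
        refine ih _ ?_ _ _ rfl hI ((erase_subset _ _).trans hJ)
          (Disjoint.mono_right (cn_mono (erase_subset _ _)) hd)
        have := card_erase_lt_of_mem hj
        omega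
      rw [hs1, hs2, ← h1, ← h2] at hU
      have hpos : (0 : ℝ) < (((cn G n I).card + (cn G n J).card : ℕ) : ℝ) := by
        have : 0 < (cn G n I).card := card_pos.2 (hIn.mono (sub_cn hI))
        exact_mod_cast Nat.add_pos_left this _
      have h3 : (((cn G n I).card + (cn G n J).card : ℕ) : ℝ) * pG G n (I ∪ J) =
          (((cn G n I).card + (cn G n J).card : ℕ) : ℝ) * (pG G n I * pG G n J) := by
        rw [hU]
        push_cast
        ring
      exact mul_left_cancel₀ hpos.ne' h3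
  intro I J hI hJ hd
  exact key _ I J rfl hI hJ hd

end Pool.Agent.Helper49.BO
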